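import Mathlib

set_option autoImplicit false

namespace Pool.Agent.H.MP_d6ea2c_co

def par (v : ℕ) : ℕ :=
  if v = 56 ∨ v = 58 then 12 else if v = 59 ∨ v = 60 then 25 else v - 1

def G : SimpleGraph (Fin 61) where
  Adj a b := a ≠ b ∧ (a.val = par b ∨ b.val = par a)
  symm := ⟨fun _ _ h => ⟨h.1.symm, h.2.symm⟩⟩
  loopless := ⟨fun _ h => h.1 rfl⟩

instance : DecidableRel G.Adj := fun _ _ => inferInstanceAs (Decidable (_ ∧ _))

theorem conn (B : Finset (Fin 61)) (r : Fin 61) (hr : r ∈ B)
    (h : ∀ v ∈ B, v ≠ r → 0 < v.val ∧ ∃ u ∈ B, u.val = par v) :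
    (G.induce (B : Set (Fin 61))).Connected := by
  have key : ∀ n (v : Fin 61) (hv : v ∈ B), v.val < n →
      (G.induce (B : Set (Fin 61))).Reachable ⟨r, hr⟩ ⟨v, hv⟩ := by
    intro n
    induction n with
    | zero => intro v _ h; omega
    | succ n ih =>
      intro v hv hn
      by_cases e : v = r
      · subst e; rfl
      · obtain ⟨h0, u, hu, hp⟩ := h v hv e
        have hlt : u.val < v.val := by rw [hp]; unfold par; split_ifs <;> omega
        have ha : G.Adj u v := ⟨fun e => by rw [e] at hlt; omega, Or.inl hp⟩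
        exact (ih u hu (by omega)).trans (SimpleGraph.Adj.reachable ha)
  have : Nonempty (B : Set (Fin 61)) := ⟨⟨r, hr⟩⟩
  exact ⟨fun a b => (key _ a.1 a.2 (Nat.lt_succ_self _)).symm.trans
    (key _ b.1 b.2 (Nat.lt_succ_self _))⟩

def Q (S : Finset (Fin 61)) (m : Multiset ℕ) : Prop :=
  ∃ P : Finpartition S, (∀ B ∈ P.parts, (G.induce (B : Set (Fin 61))).Connected) ∧
    P.parts.val.map Finset.card = m

theorem Q_ext {S : Finset (Fin 61)} {m : Multiset ℕ} (h : Q S m) (B : Finset (Fin 61))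
    (hB : (G.induce (B : Set (Fin 61))).Connected) (hd : Disjoint S B) :
    Q (S ∪ B) (B.card ::ₘ m) := by
  obtain ⟨P, h1, h2⟩ := h
  have hne : B ≠ ⊥ := by
    obtain ⟨⟨x, hx⟩⟩ := hB.nonempty
    exact Finset.ne_empty_of_mem hx
  have hnot : B ∉ P.parts := fun hb => hne (hd.symm.eq_bot_of_le (P.le hb))
  refine ⟨P.extend hne hd rfl, fun C hC => ?_, ?_⟩
  · rcases Finset.mem_insert.1 hC with rfl | hC
    · exact hB
    · exact h1 C hC
  · show (insert B P.parts).val.map Finset.card = _
    rw [Finset.insert_val_of_notMem hnot, Multiset.map_cons, h2]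

def I (x k : ℕ) : Finset (Fin 61) := Finset.univ.filter fun v => x ≤ v.val ∧ v.val < x + k

theorem mem_I (x k : ℕ) (v : Fin 61) : v ∈ I x k ↔ x ≤ v.val ∧ v.val < x + k := by simp [I]

theorem I_card (x k : ℕ) (h : x + k ≤ 61) : (I x k).card = k := by
  have : (I x k).map Fin.valEmbedding = Finset.Ico x (x + k) := by
    ext v
    simp only [Finset.mem_map, mem_I, Fin.valEmbedding_apply, Finset.mem_Ico]
    constructor
    · rintro ⟨a, ha, rfl⟩; exact ha
    · intro hv; exact ⟨⟨v, by omega⟩, hv, rfl⟩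
  rw [← Finset.card_map Fin.valEmbedding, this]; simp

theorem I_conn (x k : ℕ) (hk : 0 < k) (hx : x + k ≤ 61)
    (h : ∀ v, x < v → v < x + k → par v = v - 1) :
    (G.induce (I x k : Set (Fin 61))).Connected := by
  refine conn _ ⟨x, by omega⟩ (by simp [I]; omega) fun v hv hne => ?_
  simp only [mem_I] at hv ⊢
  have : v.val ≠ x := fun e => hne (Fin.ext e)
  exact ⟨by omega, ⟨v - 1, by omega⟩, by dsimp only; omega, (h v (by omega) hv.2).symm⟩

theorem addPath {S : Finset (Fin 61)} {m : Multiset ℕ} (h : Q S m) (l : Multiset ℕ) :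
    ∀ x s, l.sum = s → (∀ k ∈ l, 0 < k) → x + s ≤ 61 →
      (∀ v, x < v → v < x + s → par v = v - 1) → Disjoint S (I x s) →
      Q (S ∪ I x s) (l + m) := by
  induction l using Multiset.induction_on with
  | empty =>
    intro x s hs _ _ _ _
    have : S ∪ I x s = S := by
      ext v
      simp only [Multiset.sum_zero] at hs
      simp only [Finset.mem_union, mem_I]
      constructor
      · rintro (h | h)
        · exact h
        · omega
      · exact Or.inl
    rw [this]; simpa using h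
  | cons k l ih =>
    intro x s hs hp hx hv hd
    rw [Multiset.sum_cons] at hs
    have hk : 0 < k := hp k (by simp)
    rw [Finset.disjoint_left] at hd
    simp only [mem_I] at hd
    have h1 := ih (x + k) l.sum rfl (fun j hj => hp j (by simp [hj])) (by omega)
      (fun v a b => hv v (by omega) (by omega))
      (by
        rw [Finset.disjoint_left]
        intro v a
        have := hd a
        simp only [mem_I]; omega)
    have h2 := Q_ext h1 (I x k) (I_conn x k hk (by omega) fun v a b => hv v a (by omega))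
      (by
        rw [Finset.disjoint_left]
        intro v a
        simp only [Finset.mem_union, mem_I] at a ⊢
        rcases a with a | a
        · have := hd a; omega
        · omega)
    rw [I_card x k (by omega)] at h2
    have e : S ∪ I (x + k) l.sum ∪ I x k = S ∪ I x s := by
      ext v
      simp only [Finset.mem_union, mem_I]
      constructor
      · rintro ((h | h) | h)
        · exact Or.inl h
        · right; omega
        · right; omega
      · rintro (h | h)
        · exact Or.inl (Or.inl h)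
        · by_cases hh : v.val < x + k
          · right; omega
          · left; right; omega
    rw [e] at h2
    rwa [Multiset.cons_add]

def K (x y c d e f : ℕ) : Finset (Fin 61) := I x (y - x) ∪ I 56 c ∪ I 58 d ∪ I 59 e ∪ I 60 f

theorem K_card (x y c d e f : ℕ) (hxy : x ≤ y) (hy : y ≤ 56) (hc : c ≤ 2) (hd : d ≤ 1)
    (he : e ≤ 1) (hf : f ≤ 1) : (K x y c d e f).card = y - x + c + d + e + f := by
  unfold K
  rw [Finset.card_union_of_disjoint, Finset.card_union_of_disjoint, Finset.card_union_of_disjoint,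
    Finset.card_union_of_disjoint, I_card, I_card, I_card, I_card, I_card]
  any_goals omega
  all_goals
    rw [Finset.disjoint_left]
    intro v
    simp only [Finset.mem_union, mem_I]
    omega

theorem K_conn (x y c d e f : ℕ) (hxy : x < y) (hy : y ≤ 56) (hc : c ≤ 2) (hd : d ≤ 1)
    (he : e ≤ 1) (hf : f ≤ 1) (h1 : c + d = 0 ∨ (x ≤ 12 ∧ 12 < y))
    (h2 : e + f = 0 ∨ (x ≤ 25 ∧ 25 < y)) :
    (G.induce (K x y c d e f : Set (Fin 61))).Connected := by
  refine conn _ ⟨x, by omega⟩ (by simp only [K, Finset.mem_union, mem_I]; omega) fun v hv hne => ?_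
  simp only [K, Finset.mem_union, mem_I] at hv ⊢
  have : v.val ≠ x := fun e => hne (Fin.ext e)
  refine ⟨by omega, ⟨par v, ?_⟩, ?_, rfl⟩
  · unfold par; split_ifs <;> omega
  · dsimp only; unfold par; split_ifs <;> omega

def opt (z : ℕ) : Multiset ℕ := if z = 0 then 0 else {z}

def fin (a b c pc pd pe pf p q : ℕ) : Bool :=
  decide (pc ≤ 2 ∧ pd ≤ 1 ∧ pe ≤ 1 ∧ pf ≤ 1 ∧ a ≤ 12 ∧ c ≤ 30 ∧
    a + b + c + pc + pd + pe + pf + p + q = 61 ∧
    ((q = 0 ∧ b = 0) ∨ (q ≠ 0 ∧ 16 ≤ a + p + pc + pd ∧ a + p + pc + pd + b ≤ 28)))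

def R (a b c pc pd pe pf p q : ℕ) (m : Multiset ℕ) : Prop :=
  ∃ A B C Pc Pd Pe Pf : Multiset ℕ, A.sum = a ∧ B.sum = b ∧ C.sum = c ∧ Pc.sum = pc ∧
    Pd.sum = pd ∧ Pe.sum = pe ∧ Pf.sum = pf ∧
    m = opt q + (opt p + (B + (Pf + (Pe + (Pd + (Pc + (C + A)))))))

theorem fin_ok {a b c pc pd pe pf p q : ℕ} {m : Multiset ℕ} (hR : R a b c pc pd pe pf p q m)
    (hp : ∀ k ∈ m, 0 < k) (h : fin a b c pc pd pe pf p q = true) : Q Finset.univ m := by
  obtain ⟨A, B, C, Pc, Pd, Pe, Pf, hA, hB, hC, hPc, hPd, hPe, hPf, rfl⟩ := hR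
  simp only [fin, decide_eq_true_eq] at h
  obtain ⟨b1, b2, b3, b4, b5, b6, b7, b8⟩ := h
  have pv : ∀ x s, (x + s ≤ 56 ∨ (56 ≤ x ∧ x + s ≤ 58) ∨ s ≤ 1) →
      ∀ v, x < v → v < x + s → par v = v - 1 := by
    intro x s h v _ _
    unfold par; split_ifs <;> omega
  have h0 : Q ∅ 0 := ⟨Finpartition.empty _, by simp, by simp⟩
  have h1 := addPath h0 A 0 a hA (fun k hk => hp k (by simp [hk])) (by omega)
    (pv _ _ (by omega)) (by simp)
  have h2 := addPath h1 C (56 - c) c hC (fun k hk => hp k (by simp [hk])) (by omega)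
    (pv _ _ (by omega))
    (by rw [Finset.disjoint_left]; intro v; simp only [Finset.mem_union, mem_I,
      Finset.notMem_empty, false_or]; omega)
  have h3 := addPath h2 Pc (58 - pc) pc hPc (fun k hk => hp k (by simp [hk])) (by omega)
    (pv _ _ (by omega))
    (by rw [Finset.disjoint_left]; intro v; simp only [Finset.mem_union, mem_I,
      Finset.notMem_empty, false_or]; omega)
  have h4 := addPath h3 Pd 58 pd hPd (fun k hk => hp k (by simp [hk])) (by omega)
    (pv _ _ (by omega))
    (by rw [Finset.disjoint_left]; intro v; simp only [Finset.mem_union, mem_I,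
      Finset.notMem_empty, false_or]; omega)
  have h5 := addPath h4 Pe 59 pe hPe (fun k hk => hp k (by simp [hk])) (by omega)
    (pv _ _ (by omega))
    (by rw [Finset.disjoint_left]; intro v; simp only [Finset.mem_union, mem_I,
      Finset.notMem_empty, false_or]; omega)
  have h6 := addPath h5 Pf 60 pf hPf (fun k hk => hp k (by simp [hk])) (by omega)
    (pv _ _ (by omega))
    (by rw [Finset.disjoint_left]; intro v; simp only [Finset.mem_union, mem_I,
      Finset.notMem_empty, false_or]; omega)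
  rw [add_zero] at h6
  rcases b8 with ⟨c1, c2⟩ | ⟨c1, c2, c3⟩
  · have h7 := addPath h6 B 30 b hB (fun k hk => hp k (by simp [hk])) (by omega)
      (pv _ _ (by omega))
      (by rw [Finset.disjoint_left]; intro v; simp only [Finset.mem_union, mem_I,
        Finset.notMem_empty, false_or]; omega)
    have h8 := Q_ext h7 (K a (56 - c) (2 - pc) (1 - pd) (1 - pe) (1 - pf))
      (K_conn _ _ _ _ _ _ (by omega) (by omega) (by omega) (by omega) (by omega) (by omega)
        (by omega) (by omega))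
      (by rw [Finset.disjoint_left]; intro v; simp only [K, Finset.mem_union, mem_I,
        Finset.notMem_empty, false_or]; omega)
    rw [K_card _ _ _ _ _ _ (by omega) (by omega) (by omega) (by omega) (by omega) (by omega)] at h8
    have e1 : 56 - c - a + (2 - pc) + (1 - pd) + (1 - pe) + (1 - pf) = p := by omega
    have e2 : opt q = 0 := by simp [opt, c1]
    have e3 : opt p = {p} := by unfold opt; rw [if_neg (by omega)]
    rw [e1] at h8
    rw [e2, e3, zero_add, Multiset.singleton_add]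
    convert h8 using 1
    ext v
    have := v.isLt
    simp only [K, Finset.mem_union, mem_I, Finset.notMem_empty, false_or, Finset.mem_univ,
      true_iff]
    omega
  · obtain ⟨y, hy⟩ : ∃ y, y = a + p + pc + pd - 3 := ⟨_, rfl⟩
    have h7 := addPath h6 B y b hB (fun k hk => hp k (by simp [hk])) (by omega)
      (pv _ _ (by omega))
      (by rw [Finset.disjoint_left]; intro v; simp only [Finset.mem_union, mem_I,
        Finset.notMem_empty, false_or]; omega)
    have h8 := Q_ext h7 (K a y (2 - pc) (1 - pd) 0 0)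
      (K_conn _ _ _ _ _ _ (by omega) (by omega) (by omega) (by omega) (by omega) (by omega)
        (by omega) (by omega))
      (by rw [Finset.disjoint_left]; intro v; simp only [K, Finset.mem_union, mem_I,
        Finset.notMem_empty, false_or]; omega)
    have h9 := Q_ext h8 (K (y + b) (56 - c) 0 0 (1 - pe) (1 - pf))
      (K_conn _ _ _ _ _ _ (by omega) (by omega) (by omega) (by omega) (by omega) (by omega)
        (by omega) (by omega))
      (by rw [Finset.disjoint_left]; intro v; simp only [K, Finset.mem_union, mem_I,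
        Finset.notMem_empty, false_or]; omega)
    rw [K_card _ _ _ _ _ _ (by omega) (by omega) (by omega) (by omega) (by omega) (by omega),
      K_card _ _ _ _ _ _ (by omega) (by omega) (by omega) (by omega) (by omega) (by omega)] at h9
    have e1 : y - a + (2 - pc) + (1 - pd) + 0 + 0 = p := by omega
    have e1' : 56 - c - (y + b) + 0 + 0 + (1 - pe) + (1 - pf) = q := by omega
    have e2 : opt q = {q} := by simp [opt, c1]
    have e3 : opt p = {p} := by unfold opt; rw [if_neg (by omega)]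
    rw [e1, e1'] at h9
    rw [e2, e3, Multiset.singleton_add, Multiset.singleton_add]
    convert h9 using 1
    ext v
    have := v.isLt
    simp only [K, Finset.mem_union, mem_I, Finset.notMem_empty, false_or, Finset.mem_univ,
      true_iff]
    omega

def go : List ℕ → ℕ → ℕ → ℕ → ℕ → ℕ → ℕ → ℕ → ℕ → ℕ → ℕ → Bool
  | [], _, a, b, c, pc, pd, pe, pf, p, q => fin a b c pc pd pe pf p q
  | k :: l, w, a, b, c, pc, pd, pe, pf, p, q =>
    match w % 9 with
    | 0 => go l (w / 9) (k + a) b c pc pd pe pf p q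
    | 1 => go l (w / 9) a (k + b) c pc pd pe pf p q
    | 2 => go l (w / 9) a b (k + c) pc pd pe pf p q
    | 3 => go l (w / 9) a b c (k + pc) pd pe pf p q
    | 4 => go l (w / 9) a b c pc (k + pd) pe pf p q
    | 5 => go l (w / 9) a b c pc pd (k + pe) pf p q
    | 6 => go l (w / 9) a b c pc pd pe (k + pf) p q
    | 7 => p == 0 && go l (w / 9) a b c pc pd pe pf k q
    | _ => q == 0 && go l (w / 9) a b c pc pd pe pf p k

theorem go_ok (l : List ℕ) : ∀ w a b c pc pd pe pf p q (m : Multiset ℕ),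
    R a b c pc pd pe pf p q m → (∀ k ∈ l, 0 < k) → (∀ k ∈ m, 0 < k) →
    go l w a b c pc pd pe pf p q = true → Q Finset.univ ((l : Multiset ℕ) + m) := by
  induction l with
  | nil =>
    intro w a b c pc pd pe pf p q m hR _ hm h
    simpa using fin_ok hR hm h
  | cons k l ih =>
    intro w a b c pc pd pe pf p q m hR hl hm h
    have hk : 0 < k := hl k (by simp)
    have hl' : ∀ j ∈ l, 0 < j := fun j hj => hl j (by simp [hj])
    have hm' : ∀ j ∈ k ::ₘ m, 0 < j := fun j hj =>
      (Multiset.mem_cons.mp hj).elim (fun e => e ▸ hk) (hm j)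
    have e : ((k :: l : List ℕ) : Multiset ℕ) + m = (l : Multiset ℕ) + (k ::ₘ m) := by
      rw [← Multiset.cons_coe, Multiset.cons_add, Multiset.add_cons]
    rw [e]
    obtain ⟨A, B, C, Pc, Pd, Pe, Pf, hA, hB, hC, hPc, hPd, hPe, hPf, hE⟩ := hR
    unfold go at h
    split at h
    · exact ih _ _ _ _ _ _ _ _ _ _ _ ⟨k ::ₘ A, B, C, Pc, Pd, Pe, Pf, by simp [hA], hB, hC, hPc, hPd,
        hPe, hPf, by simp [hE]⟩ hl' hm' h
    · exact ih _ _ _ _ _ _ _ _ _ _ _ ⟨A, k ::ₘ B, C, Pc, Pd, Pe, Pf, hA, by simp [hB], hC, hPc, hPd,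
        hPe, hPf, by simp [hE]⟩ hl' hm' h
    · exact ih _ _ _ _ _ _ _ _ _ _ _ ⟨A, B, k ::ₘ C, Pc, Pd, Pe, Pf, hA, hB, by simp [hC], hPc, hPd,
        hPe, hPf, by simp [hE]⟩ hl' hm' h
    · exact ih _ _ _ _ _ _ _ _ _ _ _ ⟨A, B, C, k ::ₘ Pc, Pd, Pe, Pf, hA, hB, hC, by simp [hPc], hPd,
        hPe, hPf, by simp [hE]⟩ hl' hm' h
    · exact ih _ _ _ _ _ _ _ _ _ _ _ ⟨A, B, C, Pc, k ::ₘ Pd, Pe, Pf, hA, hB, hC, hPc, by simp [hPd],
        hPe, hPf, by simp [hE]⟩ hl' hm' h
    · exact ih _ _ _ _ _ _ _ _ _ _ _ ⟨A, B, C, Pc, Pd, k ::ₘ Pe, Pf, hA, hB, hC, hPc, hPd,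
        by simp [hPe], hPf, by simp [hE]⟩ hl' hm' h
    · exact ih _ _ _ _ _ _ _ _ _ _ _ ⟨A, B, C, Pc, Pd, Pe, k ::ₘ Pf, hA, hB, hC, hPc, hPd,
        hPe, by simp [hPf], by simp [hE]⟩ hl' hm' h
    · simp only [Bool.and_eq_true, beq_iff_eq] at h
      exact ih _ _ _ _ _ _ _ _ _ _ _ ⟨A, B, C, Pc, Pd, Pe, Pf, hA, hB, hC, hPc, hPd,
        hPe, hPf, by simp [hE, h.1, opt, hk.ne']⟩ hl' hm' h.2
    · simp only [Bool.and_eq_true, beq_iff_eq] at h
      exact ih _ _ _ _ _ _ _ _ _ _ _ ⟨A, B, C, Pc, Pd, Pe, Pf, hA, hB, hC, hPc, hPd,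
        hPe, hPf, by simp [hE, h.1, opt, hk.ne']⟩ hl' hm' h.2

def leaf (acc : List ℕ) (n t w : ℕ) : Bool :=
  match t with
  | 0 => go acc w n 0 0 0 0 0 0 0 0
  | 1 => go acc w 0 n 0 0 0 0 0 0 0
  | _ => go acc w 0 0 n 0 0 0 0 0 0

theorem leaf_ok {acc : List ℕ} {n t w : ℕ} (h : leaf acc n t w = true) (m : Multiset ℕ)
    (hs : m.sum = n) (ha : ∀ k ∈ acc, 0 < k) (hm : ∀ k ∈ m, 0 < k) :
    Q Finset.univ ((acc : Multiset ℕ) + m) := by
  unfold leaf at h
  split at h
  · exact go_ok _ _ _ _ _ _ _ _ _ _ _ _ ⟨m, 0, 0, 0, 0, 0, 0, hs, rfl, rfl, rfl, rfl, rfl, rfl,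
      by simp [opt]⟩ ha hm h
  · exact go_ok _ _ _ _ _ _ _ _ _ _ _ _ ⟨0, m, 0, 0, 0, 0, 0, rfl, hs, rfl, rfl, rfl, rfl, rfl,
      by simp [opt]⟩ ha hm h
  · exact go_ok _ _ _ _ _ _ _ _ _ _ _ _ ⟨0, 0, m, 0, 0, 0, 0, rfl, rfl, hs, rfl, rfl, rfl, rfl,
      by simp [opt]⟩ ha hm h

def chk : ℕ → ℕ → ℕ → ℕ → List ℕ → ℕ → Option ℕ
  | 0, _, _, _, _, _ => none
  | f + 1, n, m, z, acc, s =>
    if s % 2 = 1 then
      (if leaf acc n (s / 2 % 3) (s / 6 % z) then some (s / 6 / z) else none)
    else if n = 0 then none else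
      (List.range (min n m)).foldl
        (fun o j => o.bind (chk f (n - (j + 1)) (j + 1) (9 * z) ((j + 1) :: acc))) (some (s / 2))

theorem fold_ok (g : ℕ → ℕ → Option ℕ) (L : List ℕ) : ∀ (o : Option ℕ) (t : ℕ),
    L.foldl (fun o j => o.bind (g j)) o = some t → ∀ j ∈ L, ∃ x y, g j x = some y := by
  induction L using List.reverseRecOn with
  | nil => intro _ _ _ j hj; simp at hj
  | append_singleton L a ih =>
    intro o t h j hj
    rw [List.foldl_append, List.foldl_cons, List.foldl_nil, Option.bind_eq_some_iff] at h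
    obtain ⟨x, h1, h2⟩ := h
    rcases List.mem_append.mp hj with hj | hj
    · exact ih o x h1 j hj
    · rw [List.mem_singleton.mp hj]; exact ⟨x, t, h2⟩

theorem chk_ok (l : List ℕ) : ∀ f n m z acc s t, chk f n m z acc s = some t →
    l.Pairwise (· ≥ ·) → (∀ k ∈ l, 0 < k ∧ k ≤ m) → (∀ k ∈ acc, 0 < k) → l.sum = n →
    Q Finset.univ ((acc : Multiset ℕ) + (l : Multiset ℕ)) := by
  induction l with
  | nil =>
    intro f n m z acc s t h _ _ ha hs
    cases f with
    | zero => simp [chk] at h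
    | succ f =>
      unfold chk at h
      split_ifs at h with h1 h2 h3
      · exact leaf_ok h2 _ (by simpa using hs) ha (by simp)
      · simp at hs; omega
  | cons k l ih =>
    intro f n m z acc s t h hp hk ha hs
    have h0 := hk k (by simp)
    cases f with
    | zero => simp [chk] at h
    | succ f =>
      unfold chk at h
      split_ifs at h with h1 h2 h3
      · exact leaf_ok h2 _ (by simpa using hs) ha (fun j hj => (hk j (by simpa using hj)).1)
      · simp only [List.sum_cons] at hs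
        obtain ⟨x, y, hxy⟩ := fold_ok
          (fun j => chk f (n - (j + 1)) (j + 1) (9 * z) ((j + 1) :: acc)) _ _ _ h (k - 1)
          (List.mem_range.mpr (by omega))
        rw [show k - 1 + 1 = k by omega] at hxy
        rw [List.pairwise_cons] at hp
        have := ih f _ k _ _ _ _ hxy hp.2
          (fun x hx => ⟨(hk x (by simp [hx])).1, hp.1 x hx⟩)
          (fun j hj => (List.mem_cons.mp hj).elim (fun e => e ▸ h0.1) (ha j)) (by omega)
        rwa [← Multiset.cons_coe, Multiset.cons_add, ← Multiset.add_cons, Multiset.cons_coe] at this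

end Pool.Agent.H.MP_d6ea2c_co
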